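import Mathlib
import Pool.Agent.Q24.PileDefs
import Pool.Agent.Q24.PileRetract

/-!
# Point stabilizers of finitely generated projective piles are retracts
-/

set_option autoImplicit false

namespace Pool.Agent.Results.MP_77349f_al.StabilizersAreRetracts

open Q24.Pile

universe u

/-- Let `(G, T)` be a projective pile whose group `G` is topologically finitely generated. Then for
every `t ∈ T` the stabilizer `G_t` is a retract of `G`: there is a continuous homomorphism
`r : G → G` with values in `G_t` which is the identity on `G_t`. -/
theorem result {G T : Type u} [Group G] [TopologicalSpace G] [TopologicalSpace T]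
    (act : T → G → T) (h : IsProjective act)
    (hfg : ∃ S : Finset G, closure ((Subgroup.closure (S : Set G) : Subgroup G) : Set G) =
      Set.univ) (t : T) :
    ∃ r : G →* G, Continuous r ∧ (∀ g, r g ∈ stab act t) ∧ ∀ g ∈ stab act t, r g = g :=
  exists_retraction h hfg t

end Pool.Agent.Results.MP_77349f_al.StabilizersAreRetracts
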